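import Pool.Agent.H798.BV.Stm4

/-!
# S_EV (helper116)
-/

set_option autoImplicit false

namespace Pool.Agent.H116.BV

open Pool.Agent.H798.BV

theorem t_EV : S_EV := by
  intro m l A η T t hm hη hl hsum hT1 hT2 ht0 htT
  have hm0 : (0 : ℝ) < m := by exact_mod_cast hm
  have hT0 : 0 ≤ T := ht0.trans htT
  -- the points
  obtain ⟨x, hx⟩ : ∃ x : Fin m → ℂ, ∀ k, x k = ((t / m : ℝ) : ℂ) * l k := ⟨_, fun k => rfl⟩
  have hxn : ∀ k, ‖x k‖ = t / m * ‖l k‖ := by
    intro k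
    rw [hx, norm_mul, Complex.norm_real, Real.norm_of_nonneg (by positivity)]
  have hx1 : ∀ k ∈ A, ‖x k‖ ≤ η * T := by
    intro k hk
    rw [hxn]
    calc t / m * ‖l k‖ ≤ t / m * (η * m) := by
          gcongr
          exact hl k hk
      _ = η * t := by field_simp
      _ ≤ η * T := by gcongr
  have hx2 : ∑ k ∈ A, ‖x k‖ ≤ T := by
    calc ∑ k ∈ A, ‖x k‖ = t / m * ∑ k ∈ A, ‖l k‖ := by
          rw [Finset.mul_sum]
          exact Finset.sum_congr rfl fun k _ => hxn k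
      _ ≤ t / m * m := by gcongr
      _ = t := by field_simp
      _ ≤ T := htT
  obtain ⟨r, hr⟩ : ∃ r : Fin m → ℂ, ∀ k, r k = Complex.log (1 + -x k) - -x k := ⟨_, fun k => rfl⟩
  have hr1 : ∀ k ∈ A, ‖r k‖ ≤ ‖x k‖ ^ 2 := by
    intro k hk
    have h1 := hx1 k hk
    have h2 : ‖-x k‖ < 1 := by
      rw [norm_neg]
      linarith
    have h3 := Complex.norm_log_one_add_sub_self_le h2
    rw [← hr, norm_neg] at h3
    have h4 : (1 - ‖x k‖)⁻¹ ≤ 2 := by
      rw [inv_le_comm₀ (by linarith) (by norm_num)]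
      linarith
    have h5 : ‖x k‖ ^ 2 * (1 - ‖x k‖)⁻¹ ≤ ‖x k‖ ^ 2 * 2 := by gcongr
    linarith
  have hR : ‖∑ k ∈ A, r k‖ ≤ η * T ^ 2 := by
    calc ‖∑ k ∈ A, r k‖ ≤ ∑ k ∈ A, ‖r k‖ := norm_sum_le _ _
      _ ≤ ∑ k ∈ A, η * T * ‖x k‖ := by
          refine Finset.sum_le_sum fun k hk => (hr1 k hk).trans ?_
          rw [sq]
          gcongr
          exact hx1 k hk
      _ = η * T * ∑ k ∈ A, ‖x k‖ := by rw [Finset.mul_sum]
      _ ≤ η * T * T := by gcongr
      _ = η * T ^ 2 := by ring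
  have hprod : ∏ k ∈ A, (1 - ((t / m : ℝ) : ℂ) * l k) =
      Complex.exp (-((t : ℂ) * ((∑ k ∈ A, l k) / m))) * Complex.exp (∑ k ∈ A, r k) := by
    rw [← Complex.exp_add]
    have e1 : -((t : ℂ) * ((∑ k ∈ A, l k) / m)) + ∑ k ∈ A, r k = ∑ k ∈ A, Complex.log (1 + -x k) := by
      have e2 : -((t : ℂ) * ((∑ k ∈ A, l k) / m)) = ∑ k ∈ A, -x k := by
        rw [Finset.sum_neg_distrib]
        congr 1
        simp only [hx]
        rw [← Finset.mul_sum]
        push_cast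
        ring
      rw [e2, ← Finset.sum_add_distrib]
      refine Finset.sum_congr rfl fun k _ => ?_
      rw [hr]
      ring
    rw [e1, Complex.exp_sum]
    refine Finset.prod_congr rfl fun k hk => ?_
    rw [Complex.exp_log, hx, sub_eq_add_neg]
    intro h0
    have h1 := hx1 k hk
    have h2 : x k = 1 := by linear_combination -h0
    rw [h2, norm_one] at h1
    linarith
  have hexp := Complex.norm_exp_sub_one_le (hR.trans hT2)
  have hfac : ∏ k ∈ A, (1 - ((t / m : ℝ) : ℂ) * l k) - Complex.exp (-((t : ℂ) * ((∑ k ∈ A, l k) / m))) =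
      Complex.exp (-((t : ℂ) * ((∑ k ∈ A, l k) / m))) * (Complex.exp (∑ k ∈ A, r k) - 1) := by
    rw [hprod]
    ring
  rw [hfac, norm_mul, Complex.norm_exp, Complex.neg_re, Complex.re_ofReal_mul]
  calc Real.exp (-(t * ((∑ k ∈ A, l k) / m).re)) * ‖Complex.exp (∑ k ∈ A, r k) - 1‖
      ≤ Real.exp (-(t * ((∑ k ∈ A, l k) / m).re)) * (2 * (η * T ^ 2)) := by
        gcongr
        exact hexp.trans (by gcongr)
    _ = 2 * η * T ^ 2 * Real.exp (-(t * ((∑ k ∈ A, l k) / m).re)) := by ring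

end Pool.Agent.H116.BV
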